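import Pool.Agent.H67.HM.Stm2
import Pool.Agent.H53.HM.ABS

open Polynomial MeasureTheory Filter Topology

namespace HM

theorem ABS2_proved (hKey : S_KEY2) (hAsm : S_ASM) : S_ABS2 := by
  intro p _ hp1 hp2 X _ _ _ S M hM hT hMd hD htail
  classical
  obtain ⟨φ₀, hφ₀⟩ : ∃ x, x ∈ S.Sm := hD.nonempty
  suffices h : ∃ s : ℕ → {Λ : Finset ℂ // ∀ s ∈ Λ, 0 < s.re}, ∀ f : X, f ∈ M ↔
      Tendsto (fun n => Metric.infDist f (Submodule.span ℂ (S.e '' ((s n).1 : Set ℂ)) : Set X))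
        atTop (𝓝 0) by
    obtain ⟨s, hs⟩ := h
    exact ⟨fun n => (s n).1, fun n => (s n).2, hs⟩
  refine hAsm X M S.Sm ((M : Set X) ∩ S.Sm) {Λ : Finset ℂ // ∀ s ∈ Λ, 0 < s.re}
    (fun Λ => Submodule.span ℂ (S.e '' (Λ.1 : Set ℂ))) (1 / 128) hM (by norm_num) hD
    Set.inter_subset_left hMd ?_ ?_
  · intro m f hf ε hε
    obtain ⟨Λ, g', h1, -, -, -, h2⟩ := hKey p hp1 hp2 X S 0 (by simp) m f (fun i => (hf i).2)
      (fun i r _ => by simp) φ₀ hφ₀ ε hε htail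
    exact ⟨⟨Λ, h1⟩, h2⟩
  · intro m f hf ε hε φ hφ hφM
    obtain ⟨g, hg1, hg2, hg3⟩ := AbsAux.exists_functional M hM φ hφM
    have hd : 0 < Metric.infDist φ (M : Set X) := by
      refine lt_of_le_of_ne Metric.infDist_nonneg fun h => ?_
      exact hφM ((hM.mem_iff_infDist_zero ⟨0, M.zero_mem⟩).2 h.symm)
    obtain ⟨Λ, g', h1, h2, h3, h4, h5⟩ := hKey p hp1 hp2 X S g hg1 m f (fun i => (hf i).2)
      (fun i r hr => hg2 _ (hT r hr _ (hf i).1)) φ hφ (min ε (Metric.infDist φ (M : Set X) / 2))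
      (by positivity) htail
    refine ⟨⟨Λ, h1⟩, fun j => (h5 j).trans (min_le_left _ _), ?_⟩
    have h6 : Metric.infDist φ (M : Set X) / 2 ≤ ‖g' φ‖ := by
      have a1 := h4.trans (min_le_right _ _)
      have a2 := norm_sub_norm_le (g φ) (g' φ)
      rw [norm_sub_rev] at a2
      rw [hg3] at a2
      linarith
    have hne : ((Submodule.span ℂ (S.e '' (Λ : Set ℂ)) : Submodule ℂ X) : Set X).Nonempty :=
      ⟨0, Submodule.zero_mem _⟩
    refine (Metric.le_infDist hne).2 fun v hv => ?_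
    have h7 : g' v = 0 := by
      have : Submodule.span ℂ (S.e '' (Λ : Set ℂ)) ≤ LinearMap.ker (g' : X →ₗ[ℂ] ℂ) := by
        rw [Submodule.span_le]
        rintro x ⟨s, hs, rfl⟩
        exact h3 s hs
      exact this hv
    have h8 : ‖g' φ‖ ≤ 64 * dist φ v := by
      calc ‖g' φ‖ = ‖g' (φ - v)‖ := by rw [map_sub, h7, sub_zero]
        _ ≤ ‖g'‖ * ‖φ - v‖ := g'.le_opNorm _
        _ ≤ 64 * ‖φ - v‖ := by gcongr
        _ = 64 * dist φ v := by rw [dist_eq_norm]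
    linarith

end HM
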