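import Pool.Agent.H67.HM.Stm2
import Pool.Agent.H51.HM.GEO

open Polynomial MeasureTheory Filter Topology

namespace HM

open H51

theorem GEO2_proved : S_GEO2 := by
  intro p _ hp1 hp2 e he δ hδ l hl0 hl1 g hg
  have hptop : p ≠ ⊤ := ne_top_of_lt hp2
  have hδ' : (δ : ℂ) ≠ 0 := by exact_mod_cast hδ.ne'
  set s₀ : ℂ := -(Complex.log l) / δ with hs₀
  have hs0re : 0 < s₀.re := by
    rw [hs₀, Complex.div_ofReal_re, Complex.neg_re, Complex.log_re]
    have : Real.log ‖l‖ < 0 := Real.log_neg (norm_pos_iff.2 hl0) hl1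
    exact div_pos (by linarith) hδ
  have hs0exp : Complex.exp (-(δ * s₀)) = l := by
    have : -(δ * s₀) = Complex.log l := by rw [hs₀]; field_simp
    rw [this, Complex.exp_log hl0]
  set W := Submodule.span ℂ {x : LpI p | ∃ s : ℂ, 0 < s.re ∧ Complex.exp (-(δ * s)) = l ∧ x = e s}
    with hW
  have hfour : ∀ m : ℤ, psi δ (e s₀) (fourier m) ∈ W := by
    intro m
    set sm : ℂ := s₀ - 2 * Real.pi * Complex.I * m / δ with hsm
    have hre : 0 < sm.re := by
      have : sm.re = s₀.re := by
        rw [hsm, Complex.sub_re, Complex.div_ofReal_re]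
        simp
      rw [this]; exact hs0re
    have hexp : Complex.exp (-(δ * sm)) = l := by
      have h1 : -(δ * sm) = -(δ * s₀) + m * (2 * Real.pi * Complex.I) := by
        rw [hsm]; field_simp; ring
      rw [h1, Complex.exp_add, Complex.exp_int_mul_two_pi_mul_I, mul_one, hs0exp]
    have heq : psi δ (e s₀) (fourier m) = e sm := by
      refine Lp.ext ?_
      filter_upwards [psi_ae δ (e s₀) (fourier m), he s₀ hs0re, he sm hre, ae_pos] with x h1 h2 h3 hx
      rw [h1, h2, h3]
      unfold ang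
      rw [fourier_coe_apply, Complex.cpow_def_of_ne_zero (by exact_mod_cast hx.1.ne'),
        Complex.cpow_def_of_ne_zero (by exact_mod_cast hx.1.ne'), ← Complex.ofReal_log hx.1.le,
        ← Complex.exp_add]
      congr 1
      rw [hsm]
      push_cast
      field_simp
      ring
    rw [heq]
    exact Submodule.subset_span ⟨sm, hre, hexp, rfl⟩
  have hmem : ∀ h : C(AddCircle (1 : ℝ), ℂ), psi δ (e s₀) h ∈ W.topologicalClosure := by
    intro h
    have h1 : (Submodule.span ℂ (Set.range (@fourier (1 : ℝ)))).topologicalClosure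
        ≤ W.topologicalClosure.comap (psi δ (e s₀)).toLinearMap := by
      refine Submodule.topologicalClosure_minimal _ ?_ ?_
      · rw [Submodule.span_le]
        rintro _ ⟨m, rfl⟩
        exact W.le_topologicalClosure (hfour m)
      · exact (W.isClosed_topologicalClosure).preimage (psi δ (e s₀)).continuous
    rw [span_fourier_closure_eq_top] at h1
    exact h1 (Submodule.mem_top : h ∈ ⊤)
  set c : ℂ := ((δ ^ (-(1 / p.toReal)) : ℝ) : ℂ) with hc
  have hgx : ∀ᵐ x ∂mu, g x = c * (Complex.exp (δ * s₀ * (Int.fract (-Real.log x / δ) : ℝ))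
        * (e s₀ : ℝ → ℂ) x) := by
    filter_upwards [hg, he s₀ hs0re, ae_pos] with x h1 h2 hx
    rw [h1, h2]
    exact ident p.toReal δ x l s₀ hδ hx.1 hx.2 hs0exp
  have hfx : ∀ n, ∀ᵐ x ∂mu, (c • psi δ (e s₀) (cutC (δ * s₀) n) : LpI p) x
      = c * (cut (δ * s₀) n (Int.fract (-Real.log x / δ)) * (e s₀ : ℝ → ℂ) x) := by
    intro n
    filter_upwards [Lp.coeFn_smul c (psi δ (e s₀) (cutC (δ * s₀) n)),
      psi_ae δ (e s₀) (cutC (δ * s₀) n)] with x h1 h2
    rw [h1, Pi.smul_apply, h2, smul_eq_mul]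
    unfold ang
    rw [cutC_apply]
  have hlim : Tendsto (fun n => c • psi δ (e s₀) (cutC (δ * s₀) n)) atTop (𝓝 g) := by
    refine dct hptop _ g (e s₀) (‖c‖ * (2 * Real.exp ‖(δ : ℂ) * s₀‖)) (by positivity) ?_ ?_
    · intro n
      filter_upwards [hgx, hfx n] with x h1 h2
      rw [h1, h2, ← mul_sub, ← sub_mul, norm_mul, norm_mul]
      have hf0 := Int.fract_nonneg (-Real.log x / δ)
      have hf1 := (Int.fract_lt_one (-Real.log x / δ)).le
      have h3 := cut_norm (δ * s₀) n _ hf0 hf1
      have h4 : ‖Complex.exp (δ * s₀ * (Int.fract (-Real.log x / δ) : ℝ))‖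
          ≤ Real.exp ‖(δ : ℂ) * s₀‖ := by
        rw [Complex.norm_exp]
        refine Real.exp_le_exp.2 (le_trans (Complex.re_le_norm _) ?_)
        rw [norm_mul, Complex.norm_real, Real.norm_of_nonneg hf0]
        nlinarith [norm_nonneg ((δ : ℂ) * s₀)]
      have h5 : ‖cut (δ * s₀) n (Int.fract (-Real.log x / δ))
          - Complex.exp (δ * s₀ * (Int.fract (-Real.log x / δ) : ℝ))‖
          ≤ 2 * Real.exp ‖(δ : ℂ) * s₀‖ := by
        refine le_trans (norm_sub_le _ _) ?_
        linarith
      rw [← mul_assoc]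
      exact mul_le_mul_of_nonneg_right (mul_le_mul_of_nonneg_left h5 (norm_nonneg _))
        (norm_nonneg _)
    · have hcount : ∀ᵐ x ∂mu, x ∉ (Set.range fun m : ℤ => Real.exp (-(δ * m))) := by
        unfold mu
        exact (Set.countable_range _).ae_notMem _
      have hall : ∀ᵐ x ∂mu, ∀ n, (c • psi δ (e s₀) (cutC (δ * s₀) n) : LpI p) x
          = c * (cut (δ * s₀) n (Int.fract (-Real.log x / δ)) * (e s₀ : ℝ → ℂ) x) :=
        ae_all_iff.2 hfx
      filter_upwards [hgx, hall, ae_pos, hcount] with x h1 h2 hx h3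
      have hne : Int.fract (-Real.log x / δ) ≠ 0 := by
        intro h0
        rw [Int.fract_eq_iff] at h0
        obtain ⟨_, _, z, hz⟩ := h0
        apply h3
        refine ⟨z, ?_⟩
        rw [sub_zero] at hz
        simp only
        rw [← hz]
        have : -(δ * (-Real.log x / δ)) = Real.log x := by field_simp
        rw [this, Real.exp_log hx.1]
      have hpos : 0 < Int.fract (-Real.log x / δ) :=
        lt_of_le_of_ne (Int.fract_nonneg _) (Ne.symm hne)
      filter_upwards [cut_eventually (δ * s₀) _ hpos (Int.fract_lt_one _)] with n hn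
      rw [h2 n, h1, hn]
  have hcl : g ∈ W.topologicalClosure := by
    refine (W.isClosed_topologicalClosure).mem_of_tendsto hlim (Eventually.of_forall fun n => ?_)
    exact W.topologicalClosure.smul_mem c (hmem _)
  exact hcl

end HM
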