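import Pool.Agent.H67.HM.Stm2
import Pool.Agent.H67.HM.RES

open Polynomial MeasureTheory Filter Topology

namespace HM

open RES_aux

theorem RES2_proved (h1 : S_RSYS2) (h2 : S_RINV2) (h3 : S_ABS2) (h4 : S_HOP) : S_RES2 := by
  intro p hp1 hp2 hptop M hMc hMinv
  have h1p : 1 < p := lt_trans (by norm_num) hp2
  have hptop' : p ≠ ⊤ := hptop.ne
  haveI : Fact (p ≠ ⊤) := ⟨hptop'⟩
  obtain ⟨S, he, hT, hSm, htail⟩ := h1 p h1p hptop
  have hTT : ∀ r, 0 ≤ r → ∀ f : LpI p,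
      (S.T r f : ℝ → ℂ) =ᵐ[mu] tfun p r f ∧ ‖S.T r f‖ ≤ ‖f‖ :=
    fun r hr f => ⟨hT r hr f, S.T_le r hr f⟩
  obtain ⟨hinv, hden⟩ := h2 p h1p hptop S.T hTT M hMc hMinv
  obtain ⟨H, hH⟩ := h4 p h1p hptop
  have htopinv : HardyInvariant p (⊤ : Submodule ℂ (LpI p)) :=
    fun f _ => ⟨H f, Submodule.mem_top, hH f⟩
  obtain ⟨-, hden'⟩ := h2 p h1p hptop S.T hTT ⊤ (by simp) htopinv
  have hdense : Dense S.Sm := by
    intro f
    have := hden' (by simp : f ∈ ((⊤ : Submodule ℂ (LpI p)) : Set (LpI p)))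
    rw [hSm]
    simpa using this
  rw [← hSm] at hden
  obtain ⟨Λ, hΛ, hfin⟩ := h3 p hp2 hptop (LpI p) S M hMc hinv hden hdense htail
  refine ⟨fun n => (Λ n).image (fun s => s - 1 / (p.toReal : ℂ)), ?_, ?_⟩
  · intro n t ht
    obtain ⟨s, hs, rfl⟩ := Finset.mem_image.1 ht
    have := hΛ n s hs
    have hre : ((1 : ℂ) / (p.toReal : ℂ)).re = 1 / p.toReal := by
      rw [← Complex.ofReal_one, ← Complex.ofReal_div, Complex.ofReal_re]
    rw [Complex.sub_re, hre]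
    linarith
  · intro f
    rw [hfin f]
    have : ∀ n, Submodule.span ℂ (S.e '' ((Λ n : Finset ℂ) : Set ℂ)) =
      monoSpan p ((Λ n).image (fun s => s - 1 / (p.toReal : ℂ))) :=
      fun n => span_eq p S he (Λ n) (hΛ n)
    simp only [this]

end HM
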