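import Pool.Agent.H67.HM.Stm2
import Pool.Agent.H67.HM.RSYS

open Polynomial MeasureTheory Filter Topology

namespace HM

open RSYS_aux in
theorem RSYS2_proved (TR : S_TR) (AEC : S_AEC) (WW : S_WW) (JJ : S_JJ) (EXP : S_EXP) (GEO : S_GEO2)
    (SMO : S_SMO) : S_RSYS2 := by
  intro p _ hp1 hpt
  obtain ⟨T, hT⟩ := TR p hpt
  obtain ⟨w, hw⟩ := WW p hp1 hpt
  obtain ⟨J, hJ⟩ := JJ p hpt
  obtain ⟨e, he⟩ := EXP p hpt
  have hwT : ∀ δ, 0 < δ → ∀ r, 0 ≤ r → ∀ f : LpI p, w δ (T r f) = wfun p δ (tfun p r f) := by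
    intro δ hδ r hr f
    rw [(hw δ hδ (T r f)).1]
    exact wfun_congr p δ hδ _ _ (hT r hr f).1
  let S : Sys p (LpI p) :=
    { T := T
      T_le := fun r hr f => (hT r hr f).2
      T_zero := by
        intro f
        apply Lp.ext
        have := (hT 0 le_rfl f).1
        rwa [tfun_zero] at this
      T_add := by
        intro r s hr hs f
        apply Lp.ext
        refine (hT (r + s) (add_nonneg hr hs) f).1.trans ?_
        rw [tfun_add]
        refine (AEC p r _ _ hr (hT s hs f).1).symm.trans ?_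
        exact (hT r hr (T s f)).1.symm
      e := e
      T_e := by
        intro r s hr hs
        apply Lp.ext
        refine (hT r hr (e s)).1.trans ?_
        refine (AEC p r _ _ hr (he s hs)).trans ?_
        have h1 := Lp.coeFn_smul (Complex.exp (-(r * s))) (e s)
        refine EventuallyEq.trans ?_ h1.symm
        filter_upwards [he s hs, ae_pos] with x hx hx0
        rw [cpow_shift p r s x hx0.1, Pi.smul_apply, smul_eq_mul, hx]
      J := J
      J_le := fun δ hδ b => (hJ δ hδ b).2
      T_J := by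
        intro δ hδ b b' hb
        apply Lp.ext
        refine (hT δ hδ.le (J δ b)).1.trans ?_
        refine (AEC p δ _ _ hδ.le (hJ δ hδ b).1).trans ?_
        refine EventuallyEq.trans ?_ (hJ δ hδ b').1.symm
        filter_upwards [ae_pos] with x hx0
        exact jfun_shift p δ hδ _ _ hb x hx0.1 hx0.2
      w := w
      w_sum := by
        intro δ hδ f n
        have h1 := (hw δ hδ f).2 0 n
        simp only [zero_add, Nat.cast_zero, zero_mul, neg_zero, Real.exp_zero] at h1
        rw [(norm_pow p hpt hp1 f).2] at h1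
        refine le_trans (le_of_eq ?_) h1
        apply Finset.sum_congr rfl
        intro k _
        rw [hwT δ hδ _ (by positivity) f]
      J_geo := by
        intro δ hδ l hl hl1 b hb
        refine GEO p hp1 hpt e he δ hδ l hl hl1 (J δ b) ?_
        have h1 := (hJ δ hδ b).1
        have h2 : (b : ℕ → ℂ) = fun k => l ^ k := funext hb
        rwa [h2] at h1
      Sm := {f : LpI p | ∃ f₁ : LpI p, (f : ℝ → ℂ) =ᵐ[mu] hardyFun f₁}
      Sm_est := by
        intro f hf
        obtain ⟨f₁, hf₁⟩ := hf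
        obtain ⟨C, hC⟩ := SMO p hp1 hpt f₁ f hf₁
        refine ⟨C, fun δ hδ hδ1 b hb => ?_⟩
        refine hC δ hδ hδ1 b (J δ b) ?_ (hJ δ hδ b).1
        intro k
        rw [hb k, hwT δ hδ _ (by positivity) f] }
  refine ⟨S, he, fun r hr f => (hT r hr f).1, rfl, ?_⟩
  intro f ε hε
  obtain ⟨R, hR⟩ := tail_small p hpt hp1 f ε hε
  refine ⟨R, fun δ hδ k n hk => ?_⟩
  refine le_trans ?_ (hR (k * δ) hk)
  refine le_trans (le_of_eq ?_) ((hw δ hδ f).2 k n)
  apply Finset.sum_congr rfl
  intro j _
  change ‖w δ (T (((k + j : ℕ) : ℝ) * δ) f)‖ ^ p.toReal = _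
  rw [hwT δ hδ _ (by positivity) f]

end HM
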