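import Pool.Agent.H67.HM.Stm2

open Polynomial MeasureTheory Filter Topology

namespace HM

namespace STRaux

theorem tl_coeff (b : ℂ[X]) (k : ℕ) : (tl b).coeff (k : ℤ) = b.coeff k := by
  unfold tl
  rw [LaurentPolynomial.coeff_toLaurent]
  have := Finsupp.mapDomain_apply (f := (Nat.castEmbedding : ℕ ↪ ℤ))
    (Nat.castEmbedding : ℕ ↪ ℤ).injective b.toFinsupp.coeff k
  exact this

theorem pos_poly (y : RR) (hy : ∀ k ∈ y.coeff.support, 0 ≤ k) :
    ∃ b : ℂ[X], tl b = y := by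
  refine ⟨∑ k ∈ y.coeff.support, Polynomial.monomial k.toNat (y.coeff k), ?_⟩
  rw [map_sum]
  conv_rhs => rw [← AddMonoidAlgebra.sum_coeff_single y]
  rw [Finsupp.sum]
  apply Finset.sum_congr rfl
  intro k hk
  unfold tl
  rw [← Polynomial.C_mul_X_pow_eq_monomial, Polynomial.toLaurent_C_mul_X_pow,
    ← LaurentPolynomial.single_eq_C_mul_T, Int.toNat_of_nonneg (hy k hk)]

theorem sb_single {G H : Type} [AddCommGroup G] [AddCommGroup H] (h : G →+ H) (g : G) (c : ℂ) :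
    sb h (AddMonoidAlgebra.single g c) = AddMonoidAlgebra.single (h g) c := by
  unfold sb
  exact AddMonoidAlgebra.mapDomain_single ..

theorem Su_sb {G : Type} [AddCommGroup G] (h : G →+ ℤ) (x : AddMonoidAlgebra ℂ G) (s : ℝ)
    (hx : Su x s) : Su (sb h x) s := by
  intro χ h1 h2
  have := hx (χ.comp (sb h)) ?_ ?_
  · simpa using this
  · intro g c
    simp only [RingHom.comp_apply, sb_single]
    exact h1 _ _
  · intro g
    simp only [RingHom.comp_apply, sb_single]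
    exact h2 _

theorem csum (i J : ℕ) : ∑ j ∈ Finset.range J, (if j ≤ i then (1 : ℝ) else (1 / 2) ^ (j - (i + 1)))
    ≤ i + 3 := by
  have h1 : ∑ j ∈ Finset.range J, (if j ≤ i then (1 : ℝ) else (1 / 2) ^ (j - (i + 1))) ≤
      ∑ j ∈ Finset.range ((i + 1) + J), (if j ≤ i then (1 : ℝ) else (1 / 2) ^ (j - (i + 1))) := by
    apply Finset.sum_le_sum_of_subset_of_nonneg
    · intro x hx
      simp only [Finset.mem_range] at hx ⊢
      omega
    · intro x _ _
      split_ifs <;> positivity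
  refine h1.trans ?_
  rw [Finset.sum_range_add]
  have h2 : ∑ j ∈ Finset.range (i + 1), (if j ≤ i then (1 : ℝ) else (1 / 2) ^ (j - (i + 1))) =
      i + 1 := by
    rw [Finset.sum_congr rfl (g := fun _ => (1 : ℝ))]
    · simp
    · intro x hx
      simp only [Finset.mem_range] at hx
      rw [if_pos (by omega)]
  have h3 : ∑ j ∈ Finset.range J, (if i + 1 + j ≤ i then (1 : ℝ) else
      (1 / 2) ^ (i + 1 + j - (i + 1))) ≤ 2 := by
    rw [Finset.sum_congr rfl (g := fun j => (1 / 2 : ℝ) ^ j)]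
    · exact sum_geometric_two_le J
    · intro x _
      rw [if_neg (by omega)]
      congr 1
      omega
  rw [h2]
  linarith

end STRaux

open STRaux

theorem STR_proved (hMOD : S_MOD) (hSUBS : S_SUBS) (hNSB : S_NSB) (hMUL : S_MUL) (hN : S_NRM)
    (hS : S_STA) : S_STR := by
  intro p hp j₀ η U ρ W T₀ hj hη hU hρ
  classical
  have hp1 : (1 : ℝ) ≤ p := by linarith
  have hq1 : (1 : ℝ) ≤ p / (p - 1) := by
    rw [le_div_iff₀ (by linarith)]
    linarith
  have hU0 : 0 < U := by linarith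
  set ρ' : ℝ := min (1 / (2 * U)) (ρ / ((j₀ + 3) * U ^ (j₀ + 1))) with hρ'
  have hρ'0 : 0 < ρ' := by
    rw [hρ']
    positivity
  have hρ1 : ρ' ≤ 1 / (2 * U) := min_le_left _ _
  have hρ2 : ρ' * ((j₀ + 3) * U ^ (j₀ + 1)) ≤ ρ := by
    have := min_le_right (1 / (2 * U)) (ρ / ((j₀ + 3) * U ^ (j₀ + 1)))
    rw [← hρ'] at this
    rwa [le_div_iff₀ (by positivity)] at this
  obtain ⟨k, N, b₁, D₁, s, hs0, hD0, hb1, hbq, hD1, hDη, hact, hsu, hsρ, hM⟩ :=
    hMOD p hp j₀ η ρ' hj hη hρ'0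
  -- the finite set
  set F : Finset (Fin k → Fin N → ℤ) := {0} ∪ b₁.coeff.support ∪
    ((Finset.range (j₀ + 1)).biUnion fun i => (D₁ i).coeff.support) ∪
    ((Finset.range (j₀ + 1)).biUnion fun i => (Finset.range (j₀ + 1)).biUnion fun j =>
      (b₁ ^ j * D₁ i - D₁ (i - j)).coeff.support) with hF
  obtain ⟨h, hsep, hpos⟩ := hSUBS k N F (max W T₀)
  have hsepW : ∀ α ∈ F, ∀ β ∈ F, α ≠ β → 2 * (W : ℤ) < |h α - h β| := by
    intro α hα β hβ hne
    refine lt_of_le_of_lt ?_ (hsep α hα β hβ hne)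
    have : (W : ℤ) ≤ ((max W T₀ : ℕ) : ℤ) := by exact_mod_cast le_max_left _ _
    linarith
  have key : ∀ y : AddMonoidAlgebra ℂ (Fin k → Fin N → ℤ), y.coeff.support ⊆ F →
      (∀ k ∈ (sb h y).coeff.support, ∃ α ∈ y.coeff.support, k = h α) ∧
      ∀ (r : ℝ), 1 ≤ r → Nn r (sb h y) = Nn r y ∧
        ∀ x : RR, (∀ k ∈ x.coeff.support, |k| ≤ W) → Nn r (x * sb h y) = Nn r x * Nn r y := by
    intro y hy
    exact hNSB h y W fun α hα β hβ hne => hsepW α (hy hα) β (hy hβ) hne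
  have hFb : b₁.coeff.support ⊆ F := by
    intro x hx
    simp only [hF, Finset.mem_union]
    tauto
  have hFD : ∀ i ≤ j₀, (D₁ i).coeff.support ⊆ F := by
    intro i hi x hx
    simp only [hF, Finset.mem_union, Finset.mem_biUnion, Finset.mem_range]
    left; right
    exact ⟨i, by omega, hx⟩
  have hFd : ∀ i ≤ j₀, ∀ j ≤ j₀, (b₁ ^ j * D₁ i - D₁ (i - j)).coeff.support ⊆ F := by
    intro i hi j hj' x hx
    simp only [hF, Finset.mem_union, Finset.mem_biUnion, Finset.mem_range]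
    right
    exact ⟨i, by omega, j, by omega, hx⟩
  have hbsupp : ∀ k ∈ (sb h b₁).coeff.support, (T₀ : ℤ) ≤ k := by
    intro x hx
    obtain ⟨α, hα, rfl⟩ := (key b₁ hFb).1 x hx
    have := hpos α (hb1 α hα).1 (hb1 α hα).2
    have h2 : (T₀ : ℤ) ≤ ((max W T₀ : ℕ) : ℤ) := by exact_mod_cast le_max_right _ _
    linarith
  obtain ⟨b, hb⟩ := pos_poly (sb h b₁) (fun x hx => le_trans (by positivity) (hbsupp x hx))
  have hsup : ∀ z : ℂ, ‖z‖ = 1 → ‖b.eval z‖ ≤ s := hS.evl b s (by rw [hb]; exact Su_sb h b₁ s hsu)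
  have hUs : U * s ≤ 1 / 2 := by
    calc U * s ≤ U * (1 / (2 * U)) := by
          apply mul_le_mul_of_nonneg_left (hsρ.trans hρ1) hU0.le
      _ = 1 / 2 := by field_simp
  have hbpow : ∀ (j : ℕ) (x : RR), Nn 2 (tl b ^ j * x) ≤ s ^ j * Nn 2 x := by
    intro j
    induction j with
    | zero => intro x; simp
    | succ j ih =>
      intro x
      have h1 : tl b ^ (j + 1) * x = tl b * (tl b ^ j * x) := by ring
      rw [h1]
      calc Nn 2 (tl b * (tl b ^ j * x)) ≤ s * Nn 2 (tl b ^ j * x) := hMUL b s hs0 hsup _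
        _ ≤ s * (s ^ j * Nn 2 x) := mul_le_mul_of_nonneg_left (ih x) hs0
        _ = s ^ (j + 1) * Nn 2 x := by ring
  refine ⟨b, fun i => sb h (D₁ i), ?_⟩
  refine ⟨by simp [hD0], ?_, ?_, ?_, ?_, ?_, ?_⟩
  · intro l hl
    rw [← tl_coeff, hb]
    by_contra hne
    have := hbsupp (l : ℤ) (Finsupp.mem_support_iff.2 hne)
    have : (T₀ : ℤ) ≤ (l : ℤ) := this
    omega
  · intro x hx
    rw [hb, ((key b₁ hFb).2 _ hq1).2 x hx]
    calc Nn (p / (p - 1)) x * Nn (p / (p - 1)) b₁ ≤ Nn (p / (p - 1)) x * 1 :=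
          mul_le_mul_of_nonneg_left hbq (hN.nonneg _ _)
      _ = _ := mul_one _
  · intro x hx
    rw [((key (D₁ 1) (hFD 1 hj)).2 p hp1).2 x hx]
    calc Nn p x * Nn p (D₁ 1) ≤ Nn p x * 1 := mul_le_mul_of_nonneg_left hD1 (hN.nonneg _ _)
      _ = _ := mul_one _
  · intro i hi hi'
    rw [((key (D₁ i) (hFD i hi')).2 p hp1).1]
    exact hDη i hi hi'
  · intro i hi J
    have hUi : U ^ (i + 1) ≤ U ^ (j₀ + 1) := pow_le_pow_right₀ hU (by omega)
    have hterm : ∀ j : ℕ, U ^ j * Nn p (tl b ^ j * sb h (D₁ i) -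
        if j ≤ i then sb h (D₁ (i - j)) else 0) ≤
        (U ^ (j₀ + 1) * ρ') * (if j ≤ i then (1 : ℝ) else (1 / 2) ^ (j - (i + 1))) := by
      intro j
      by_cases hji : j ≤ i
      · rw [if_pos hji, if_pos hji, hb, ← map_pow, ← map_mul, ← map_sub,
          ((key _ (hFd i hi j (by omega))).2 p hp1).1, mul_one]
        exact mul_le_mul (pow_le_pow_right₀ hU (by omega)) (hact i hi j hji) (hN.nonneg _ _)
          (by positivity)
      · rw [if_neg hji, if_neg hji, sub_zero]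
        obtain ⟨l, rfl⟩ : ∃ l, j = i + 1 + l := ⟨j - (i + 1), by omega⟩
        have e1 : i + 1 + l - (i + 1) = l := by omega
        rw [e1]
        have h2 : Nn 2 (sb h (D₁ i)) = Nn 2 (D₁ i) :=
          ((key (D₁ i) (hFD i hi)).2 2 (by norm_num)).1
        have h3 : Nn p (tl b ^ (i + 1 + l) * sb h (D₁ i)) ≤ s ^ (i + 1 + l) * Nn 2 (D₁ i) := by
          refine (hN.mono 2 p _ (by norm_num) hp.le).trans ?_
          rw [← h2]
          exact hbpow _ _
        have h4 : (U * s) ^ l ≤ (1 / 2 : ℝ) ^ l := pow_le_pow_left₀ (by positivity) hUs l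
        calc U ^ (i + 1 + l) * Nn p (tl b ^ (i + 1 + l) * sb h (D₁ i))
            ≤ U ^ (i + 1 + l) * (s ^ (i + 1 + l) * Nn 2 (D₁ i)) :=
              mul_le_mul_of_nonneg_left h3 (by positivity)
          _ = U ^ (i + 1) * (Nn 2 (D₁ i) * s ^ (i + 1)) * (U * s) ^ l := by
              rw [mul_pow]; ring
          _ ≤ U ^ (j₀ + 1) * ρ' * (1 / 2 : ℝ) ^ l := by
              have hn := hN.nonneg 2 (D₁ i)
              apply mul_le_mul _ h4 (by positivity) (by positivity)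
              exact mul_le_mul hUi (hM i hi) (by positivity) (by positivity)
    calc ∑ j ∈ Finset.range J, U ^ j * Nn p (tl b ^ j * sb h (D₁ i) -
        if j ≤ i then sb h (D₁ (i - j)) else 0)
        ≤ ∑ j ∈ Finset.range J,
          (U ^ (j₀ + 1) * ρ') * (if j ≤ i then (1 : ℝ) else (1 / 2) ^ (j - (i + 1))) :=
          Finset.sum_le_sum fun j _ => hterm j
      _ = (U ^ (j₀ + 1) * ρ') * ∑ j ∈ Finset.range J,
          (if j ≤ i then (1 : ℝ) else (1 / 2) ^ (j - (i + 1))) := by rw [Finset.mul_sum]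
      _ ≤ (U ^ (j₀ + 1) * ρ') * (j₀ + 3) := by
          apply mul_le_mul_of_nonneg_left _ (by positivity)
          refine (csum i J).trans ?_
          have : (i : ℝ) ≤ j₀ := by exact_mod_cast hi
          linarith
      _ ≤ ρ := by
          refine le_trans (le_of_eq ?_) hρ2
          ring
  · intro z hz
    calc U * ‖b.eval z‖ ≤ U * s := mul_le_mul_of_nonneg_left (hsup z hz) hU0.le
      _ ≤ 1 := by linarith

end HM
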