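import Pool.Agent.H67.HM.Stm2
import Pool.Agent.H97.HM.Win

set_option autoImplicit false
open Polynomial Filter Topology

namespace HM

theorem WIN2_proved : S_WIN2 := by
  intro p hp2 m L γ a ε hL hε hγ ha haL hc
  have hp : 1 < p := by linarith
  have hp0 : 0 < p := by linarith
  set q := p / (p - 1) with hq
  have hq0 : 0 < q := by
    rw [hq]
    exact div_pos hp0 (by linarith)
  have hLr : (0 : ℝ) < L := by exact_mod_cast hL
  -- the small number
  set τ : ℝ := ε / √(2 * L) with hτd
  have h2L : (0 : ℝ) < 2 * L := by positivity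
  have hsq : √(2 * (L : ℝ)) ^ 2 = 2 * L := Real.sq_sqrt h2L.le
  have hsqp : 0 < √(2 * (L : ℝ)) := Real.sqrt_pos.mpr h2L
  have hτ : 0 < τ := div_pos hε hsqp
  -- the cutoff
  choose N hN using ha
  have hNpos : ∀ i, 0 ≤ N i := fun i => by simpa using hN i 0
  have htl : ∀ i, ∃ M₀ : ℕ, ∀ M, M₀ ≤ M → Bd p (fun k => a i (M + k)) (τ ^ p) := fun i =>
    tail_small (hN i) (Real.rpow_pos_of_pos hτ p)
  choose M₀ hM₀ using htl
  set M : ℕ := L + ∑ i, M₀ i with hMd
  have hMM : ∀ i, Bd p (fun k => a i (M + k)) (τ ^ p) := by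
    intro i
    apply hM₀ i M
    have : M₀ i ≤ ∑ i, M₀ i := Finset.single_le_sum (f := M₀) (fun _ _ => Nat.zero_le _)
      (Finset.mem_univ i)
    omega
  have hLM : L ≤ M := by omega
  -- the weights
  set α : ℝ := (L : ℝ) ^ (-(1 / q)) with hα
  set β : ℝ := (L : ℝ) ^ (-(1 / p)) with hβ
  have hα0 : 0 < α := Real.rpow_pos_of_pos hLr _
  have hβ0 : 0 < β := Real.rpow_pos_of_pos hLr _
  have hαβ : α * β = (L : ℝ)⁻¹ := by
    rw [hα, hβ, ← Real.rpow_add hLr, ← Real.rpow_neg_one]
    congr 1
    rw [hq]
    field_simp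
    ring
  have hαq : α ^ q = (L : ℝ)⁻¹ := by
    rw [hα, ← Real.rpow_mul hLr.le, ← Real.rpow_neg_one]
    congr 1
    field_simp
  have hβp : β ^ p = (L : ℝ)⁻¹ := by
    rw [hβ, ← Real.rpow_mul hLr.le, ← Real.rpow_neg_one]
    congr 1
    field_simp
  set R := M + L with hR
  set Q : ℕ → ℂ[X] := fun s => mk M fun j => if M ≤ j + s ∧ j + s < M + L then (α : ℂ) * γ j else 0
    with hQd
  set u : ℕ → Fin m → ℂ[X] := fun s i => mk M fun j =>
    if L ≤ j ∧ (M ≤ j + s ∧ j + s < M + 2 * L) then (β : ℂ) * a i j else 0 with hud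
  set x : ℕ → ℝ := fun s => ∑ k ∈ Finset.range M,
    ‖(if M ≤ k + s ∧ k + s < M + L then (α : ℂ) * γ k else 0)‖ ^ q with hxd
  set z : Fin m → ℕ → ℝ := fun i s => ∑ k ∈ Finset.range M,
    ‖(if L ≤ k ∧ (M ≤ k + s ∧ k + s < M + 2 * L) then (β : ℂ) * a i k else 0)‖ ^ p with hzd
  set y : ℕ → ℝ := fun s => ∑ i, z i s with hyd
  have hz0 : ∀ i s, 0 ≤ z i s := fun i s => Finset.sum_nonneg fun k _ => by positivity
  refine ⟨mk L γ, fun i => mk L (a i), R, Q, u, x, y, fun k => coeff_mk _ _ _,
    fun i k => coeff_mk _ _ _, ?_, ?_, ?_, ?_, ?_⟩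
  · intro r _
    exact Bd_mk hq0 _ _
  · -- the sum of the `x`
    have h1 : ∀ s k, ‖(if M ≤ k + s ∧ k + s < M + L then (α : ℂ) * γ k else 0)‖ ^ q =
        if M ≤ k + s ∧ k + s < M + L then (L : ℝ)⁻¹ * ‖γ k‖ ^ q else 0 := by
      intro s k
      split_ifs
      · rw [norm_mul, Complex.norm_real, Real.norm_of_nonneg hα0.le,
          Real.mul_rpow hα0.le (norm_nonneg _), hαq]
      · rw [norm_zero, Real.zero_rpow hq0.ne']
    calc ∑ s ∈ Finset.range R, x s
        = ∑ k ∈ Finset.range M, ∑ s ∈ Finset.range R,
            (if M ≤ k + s ∧ k + s < M + L then (L : ℝ)⁻¹ * ‖γ k‖ ^ q else 0) := by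
          rw [hxd, Finset.sum_comm]
          simp only [h1]
      _ ≤ ∑ k ∈ Finset.range M, ‖γ k‖ ^ q := by
          apply Finset.sum_le_sum
          intro k _
          rw [← Finset.sum_filter, Finset.sum_const, nsmul_eq_mul]
          have h2 : (((Finset.range R).filter fun s => M ≤ k + s ∧ k + s < M + L).card : ℝ) ≤ L := by
            exact_mod_cast cnt_window R M L k
          calc (((Finset.range R).filter fun s => M ≤ k + s ∧ k + s < M + L).card : ℝ) *
                ((L : ℝ)⁻¹ * ‖γ k‖ ^ q) ≤ L * ((L : ℝ)⁻¹ * ‖γ k‖ ^ q) :=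
                mul_le_mul_of_nonneg_right h2 (by positivity)
            _ = ‖γ k‖ ^ q := by field_simp
      _ ≤ 1 := hγ M
  · intro r _ i
    intro n
    calc ∑ k ∈ Finset.range n, ‖(u r i).coeff k‖ ^ p ≤ z i r := Bd_mk hp0 _ _ n
      _ ≤ y r := Finset.single_le_sum (f := fun i => z i r) (fun i _ => hz0 i r) (Finset.mem_univ i)
  · -- the sum of the `y`
    have h1 : ∀ i s k, ‖(if L ≤ k ∧ (M ≤ k + s ∧ k + s < M + 2 * L) then (β : ℂ) * a i k else 0)‖ ^ p =
        if L ≤ k ∧ (M ≤ k + s ∧ k + s < M + 2 * L) then (L : ℝ)⁻¹ * ‖a i k‖ ^ p else 0 := by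
      intro i s k
      split_ifs
      · rw [norm_mul, Complex.norm_real, Real.norm_of_nonneg hβ0.le,
          Real.mul_rpow hβ0.le (norm_nonneg _), hβp]
      · rw [norm_zero, Real.zero_rpow hp0.ne']
    have h2 : ∀ i, ∑ s ∈ Finset.range R, z i s ≤ 2 * ε ^ p := by
      intro i
      calc ∑ s ∈ Finset.range R, z i s
          = ∑ k ∈ Finset.range M, ∑ s ∈ Finset.range R,
            (if L ≤ k ∧ (M ≤ k + s ∧ k + s < M + 2 * L) then (L : ℝ)⁻¹ * ‖a i k‖ ^ p else 0) := by
            rw [hzd, Finset.sum_comm]
            simp only [h1]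
        _ ≤ ∑ k ∈ Finset.range M, if L ≤ k then 2 * ‖a i k‖ ^ p else 0 := by
            apply Finset.sum_le_sum
            intro k _
            by_cases hk : L ≤ k
            · simp only [hk, true_and, if_true]
              rw [← Finset.sum_filter, Finset.sum_const, nsmul_eq_mul]
              have h2 : (((Finset.range R).filter fun s => M ≤ k + s ∧ k + s < M + 2 * L).card : ℝ)
                  ≤ 2 * L := by
                exact_mod_cast cnt_window R M (2 * L) k
              calc (((Finset.range R).filter fun s => M ≤ k + s ∧ k + s < M + 2 * L).card : ℝ) *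
                    ((L : ℝ)⁻¹ * ‖a i k‖ ^ p) ≤ 2 * L * ((L : ℝ)⁻¹ * ‖a i k‖ ^ p) :=
                    mul_le_mul_of_nonneg_right h2 (by positivity)
                _ = 2 * ‖a i k‖ ^ p := by field_simp
            · simp [hk]
        _ = 2 * ∑ k ∈ Finset.range (M - L), ‖a i (L + k)‖ ^ p := by
            obtain ⟨l, hl⟩ := Nat.exists_eq_add_of_le hLM
            have e1 : M - L = l := by omega
            rw [e1, hl, Finset.sum_range_add, Finset.mul_sum]
            have e2 : ∑ x ∈ Finset.range L, (if L ≤ x then 2 * ‖a i x‖ ^ p else 0) = 0 := by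
              apply Finset.sum_eq_zero
              intro x hx
              rw [Finset.mem_range] at hx
              rw [if_neg (by omega)]
            rw [e2, zero_add]
            apply Finset.sum_congr rfl
            intro x _
            rw [if_pos (by omega)]
        _ ≤ 2 * ε ^ p := by
            have := haL i (M - L)
            linarith
    calc ∑ s ∈ Finset.range R, y s = ∑ i, ∑ s ∈ Finset.range R, z i s := by
          rw [hyd, Finset.sum_comm]
      _ ≤ ∑ _i : Fin m, 2 * ε ^ p := Finset.sum_le_sum fun i _ => h2 i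
      _ = 2 * m * ε ^ p := by
          rw [Finset.sum_const, Finset.card_univ, Fintype.card_fin, nsmul_eq_mul]
          ring
  · intro i
    -- the total
    have hval : ∀ k, cor (mk L γ) (mk L (a i)).coeff k +
        ∑ r ∈ Finset.range R, cor (Q r) (u r i).coeff k =
        ((((Finset.range L).filter fun t => t + k < 2 * L).card : ℝ) / L : ℝ) *
          ∑ j ∈ Finset.range (M - k), γ j * a i (j + k) := by
      intro k
      have h1 := window_cor L M (α : ℂ) (β : ℂ) γ (a i) k
      have h2 : ∑ r ∈ Finset.range R, cor (Q r) (u r i).coeff k =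
          ((((Finset.range L).filter fun t => t + k < 2 * L).card : ℝ) / L : ℝ) *
            ∑ j ∈ Finset.range (M - k), if L ≤ j + k then γ j * a i (j + k) else 0 := by
        rw [hR]
        rw [h1]
        congr 1
        rw [div_eq_mul_inv, ← hαβ]
        push_cast
        rfl
      have h3 : cor (mk L γ) (mk L (a i)).coeff k =
          ((((Finset.range L).filter fun t => t + k < 2 * L).card : ℝ) / L : ℝ) *
            ∑ j ∈ Finset.range (M - k), if L ≤ j + k then 0 else γ j * a i (j + k) := by
        rw [cor_eq _ L (fun j hj => by rw [coeff_mk, if_neg (by omega)])]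
        have e1 : ∑ j ∈ Finset.range L, (mk L γ).coeff j * (mk L (a i)).coeff (j + k) =
            ∑ j ∈ (Finset.range L).filter (fun j => j + k < L), γ j * a i (j + k) := by
          rw [Finset.sum_filter]
          apply Finset.sum_congr rfl
          intro j hj
          rw [Finset.mem_range] at hj
          rw [coeff_mk, coeff_mk, if_pos hj]
          split_ifs
          · rfl
          · rw [mul_zero]
        have e2 : ∑ j ∈ Finset.range (M - k), (if L ≤ j + k then 0 else γ j * a i (j + k)) =
            ∑ j ∈ (Finset.range (M - k)).filter (fun j => ¬ L ≤ j + k), γ j * a i (j + k) := by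
          rw [Finset.sum_filter]
          apply Finset.sum_congr rfl
          intro j _
          by_cases h : L ≤ j + k
          · rw [if_pos h, if_neg (fun h' => h' h)]
          · rw [if_neg h, if_pos h]
        have e3 : (Finset.range L).filter (fun j => j + k < L) =
            (Finset.range (M - k)).filter (fun j => ¬ L ≤ j + k) := by
          ext j
          simp only [Finset.mem_filter, Finset.mem_range]
          omega
        rw [e1, e2, e3]
        by_cases hk : k ≤ L
        · rw [cnt_eq L k hk, div_self hLr.ne']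
          simp
        · have e4 : (Finset.range (M - k)).filter (fun j => ¬ L ≤ j + k) = ∅ := by
            rw [Finset.filter_eq_empty_iff]
            intro j _
            omega
          rw [e4, Finset.sum_empty, mul_zero]
      rw [h2, h3, ← mul_add, ← Finset.sum_add_distrib]
      congr 1
      apply Finset.sum_congr rfl
      intro j _
      split_ifs <;> simp
    have hsmall : ∀ k, ‖∑ j ∈ Finset.range (M - k), γ j * a i (j + k)‖ ≤ 2 * τ := by
      intro k
      have h1 := corr_tail hp hγ (hN i) (hNpos i) hτ.le M (hMM i) k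
      have h2 : ‖∑' j : ℕ, γ j * a i (j + k)‖ ≤ τ := by
        have h3 := hc i k
        rw [hτd, le_div_iff₀ hsqp]
        apply le_of_sq_le_sq _ hε.le
        rw [mul_pow, hsq]
        linarith
      calc ‖∑ j ∈ Finset.range (M - k), γ j * a i (j + k)‖
          = ‖∑' j : ℕ, γ j * a i (j + k) - (∑' j : ℕ, γ j * a i (j + k) -
              ∑ j ∈ Finset.range (M - k), γ j * a i (j + k))‖ := by
            congr 1
            ring
        _ ≤ ‖∑' j : ℕ, γ j * a i (j + k)‖ + ‖∑' j : ℕ, γ j * a i (j + k) -
              ∑ j ∈ Finset.range (M - k), γ j * a i (j + k)‖ := norm_sub_le _ _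
        _ ≤ 2 * τ := by linarith
    have hterm : ∀ k, ‖cor (mk L γ) (mk L (a i)).coeff k +
        ∑ r ∈ Finset.range R, cor (Q r) (u r i).coeff k‖ ^ (2 : ℝ) ≤
        if k < 2 * L then (2 * τ) ^ 2 else 0 := by
      intro k
      rw [hval k, Real.rpow_two, norm_mul, Complex.norm_real]
      by_cases hk : k < 2 * L
      · rw [if_pos hk]
        apply pow_le_pow_left₀ (by positivity)
        have h1 : ‖(((Finset.range L).filter fun t => t + k < 2 * L).card : ℝ) / L‖ ≤ 1 := by
          rw [Real.norm_of_nonneg (by positivity), div_le_one hLr]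
          exact_mod_cast cnt_le L k
        calc ‖(((Finset.range L).filter fun t => t + k < 2 * L).card : ℝ) / L‖ *
              ‖∑ j ∈ Finset.range (M - k), γ j * a i (j + k)‖ ≤ 1 * (2 * τ) :=
              mul_le_mul h1 (hsmall k) (norm_nonneg _) zero_le_one
          _ = 2 * τ := one_mul _
      · rw [if_neg hk, cnt_zero L k (by omega)]
        simp
    intro n
    calc ∑ k ∈ Finset.range n, ‖cor (mk L γ) (mk L (a i)).coeff k +
        ∑ r ∈ Finset.range R, cor (Q r) (u r i).coeff k‖ ^ (2 : ℝ)
        ≤ ∑ k ∈ Finset.range n, if k < 2 * L then (2 * τ) ^ 2 else 0 :=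
          Finset.sum_le_sum fun k _ => hterm k
      _ = (((Finset.range n).filter fun k => k < 2 * L).card : ℝ) * (2 * τ) ^ 2 := by
          rw [← Finset.sum_filter, Finset.sum_const, nsmul_eq_mul]
      _ ≤ (2 * L : ℝ) * (2 * τ) ^ 2 := by
          apply mul_le_mul_of_nonneg_right _ (by positivity)
          have h5 : ((Finset.range n).filter fun k => k < 2 * L).card ≤ 2 * L := by
            calc _ ≤ (Finset.range (2 * L)).card := by
                  apply Finset.card_le_card
                  intro k hk
                  rw [Finset.mem_filter] at hk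
                  rw [Finset.mem_range]
                  exact hk.2
              _ = 2 * L := Finset.card_range _
          exact_mod_cast h5
      _ = (2 * ε) ^ 2 := by
          rw [hτd]
          field_simp
          rw [hsq]

end HM
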